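import Pool.Agent.Helper4.UpLoc.Final

/-! Every outerplanar DAG of maximum degree at most `Δ` has an upward drawing in which every edge
is crossed at most `160 Δ² + 1068 Δ + 1782` times. -/

open Pool.Agent.Helper4.UpLoc in
theorem Pool.Agent.Results.MP_de303a_co.BoundedDegreeOuterplanar.result :
    ∀ (Δ : ℕ) (V : Type) [Fintype V] (A : V → V → Prop),
      (∀ v, ¬ Relation.TransGen A v v) →
      IsOuterplanar (SimpleGraph.fromRel A) →
      (∀ v, {u | A u v}.encard + {u | A v u}.encard ≤ Δ) →
      ∃ D : UpwardDrawing A, D.IsKPlanar (160 * Δ ^ 2 + 1068 * Δ + 1782) :=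
  fun Δ V _ A hdag hout hdeg => outerplanar_drawing Δ V A hdag hout hdeg
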