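import Pool.Agent.Helper51.TT.TwoTree

/-! Every DAG of maximum degree at most `Δ` whose underlying graph is a 2-tree has an upward drawing
in which every edge is crossed at most `4 Δ³ (Δ + 1)²` times. -/

open Pool.Agent.Helper4.UpLoc Pool.Agent.Helper51.TT in
theorem Pool.Agent.Results.MP_de303a_co.BoundedDegreeTwoTrees.result :
    ∀ (Δ : ℕ) (V : Type) [Fintype V] (A : V → V → Prop),
      (∀ v, ¬ Relation.TransGen A v v) →
      IsTwoTree (SimpleGraph.fromRel A) →
      (∀ v, {u | A u v}.encard + {u | A v u}.encard ≤ Δ) →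
      ∃ D : UpwardDrawing A, D.IsKPlanar (4 * Δ ^ 3 * (Δ + 1) ^ 2) :=
  fun Δ V _ A hdag htt hdeg => twoTree_drawing Δ V A hdag htt hdeg
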